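import Pool.Agent.W749.JI.Stm

set_option autoImplicit false

namespace Pool.Agent.W358.JI

open Pool.Agent.W428.MOT Pool.Agent.W749.NM Pool.Agent.W749.JI
open Pool.Agent.W426.SM (AffInd gord ford IsRay face ff aff)

section

variable {n k r : ℕ} (π : Fin k → Fin r) (m : Fin k → Fin n → ℕ)

theorem dotc (U : Fin (n + r) → ℕ) (j : Fin k) :
    ∑ i, U i * cay π m j i =
      ∑ v, U (Fin.castAdd r v) * m j v + U (Fin.natAdd n (π j)) := by
  unfold cay
  rw [Fin.sum_univ_add]
  simp only [Fin.append_left, Fin.append_right, mul_ite, mul_one, mul_zero, Finset.sum_ite_eq,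
    Finset.mem_univ, if_true]

theorem gord_le (m' : Fin k → Fin n → ℕ) (u : Fin n → ℕ) (j : Fin k) :
    gord m' u ≤ ∑ i, u i * m' j i := by
  unfold gord
  exact ciInf_le' _ j

theorem gord_spec (m' : Fin k → Fin n → ℕ) (u : Fin n → ℕ) (τ : Finset (Fin k))
    (hτ : τ.Nonempty) (M : ℕ) :
    (amin m' u = τ ∧ ford (fun _ => 0) m' 1 u = M) ↔
      (∀ j ∈ τ, ∑ i, u i * m' j i = M) ∧ ∀ j, j ∉ τ → M < ∑ i, u i * m' j i := by
  have hf : ford (fun _ => 0) m' 1 u = gord m' u := by
    unfold ford
    simp
  rw [hf]
  constructor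
  · rintro ⟨rfl, rfl⟩
    constructor
    · intro j hj
      exact (Finset.mem_filter.1 hj).2
    · intro j hj
      refine lt_of_le_of_ne (gord_le m' u j) fun h => hj ?_
      exact Finset.mem_filter.2 ⟨Finset.mem_univ _, h.symm⟩
  · rintro ⟨h1, h2⟩
    obtain ⟨j0, hj0⟩ := hτ
    have hg : gord m' u = M := by
      apply le_antisymm
      · exact (gord_le m' u j0).trans (h1 j0 hj0).le
      · unfold gord
        have : Nonempty (Fin k) := ⟨j0⟩
        refine le_ciInf fun j => ?_
        by_cases hj : j ∈ τ
        · exact (h1 j hj).ge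
        · exact (h2 j hj).le
    refine ⟨?_, hg⟩
    ext j
    unfold amin
    rw [Finset.mem_filter, hg]
    constructor
    · rintro ⟨-, h⟩
      by_contra hj
      exact (h2 j hj).ne' h
    · intro h
      exact ⟨Finset.mem_univ _, h1 j h⟩

theorem ordI_le (u : Fin n → ℕ) (j : Fin k) : ordI π m u (π j) ≤ ∑ v, u v * m j v := by
  unfold ordI
  exact ciInf_le' (fun j' : {j' : Fin k // π j' = π j} => ∑ v, u v * m j'.1 v) ⟨j, rfl⟩

theorem ordI_att (hπ : Function.Surjective π) (u : Fin n → ℕ) (i : Fin r) :
    ∃ j, π j = i ∧ ∑ v, u v * m j v = ordI π m u i := by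
  obtain ⟨j0, hj0⟩ := hπ i
  have : Nonempty {j : Fin k // π j = i} := ⟨⟨j0, hj0⟩⟩
  obtain ⟨⟨j, hj⟩, h⟩ := Nat.sInf_mem
    (Set.range_nonempty fun j : {j : Fin k // π j = i} => ∑ v, u v * m j.1 v)
  exact ⟨j, hj, h⟩

/-- the last coordinates -/
noncomputable def lv (Q : Finset (Fin r)) (M : ℕ) (u : Fin n → ℕ) (i : Fin r) : ℕ :=
  if i ∈ Q then M - ordI π m u i else 0

theorem mem_JQ_left (Q' : Finset (Fin r)) (v : Fin n) : Fin.castAdd r v ∈ JQ n Q' := by
  unfold JQ
  rw [Finset.mem_union]
  left
  rw [Finset.mem_map]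
  exact ⟨v, Finset.mem_univ _, rfl⟩

theorem mem_JQ_right (Q' : Finset (Fin r)) (i : Fin r) : Fin.natAdd n i ∈ JQ n Q' ↔ i ∈ Q' := by
  unfold JQ
  rw [Finset.mem_union, Finset.mem_map, Finset.mem_map]
  constructor
  · rintro (⟨v, -, hv⟩ | ⟨i', hi', h⟩)
    · exfalso
      have := congrArg Fin.val hv
      simp at this
      omega
    · have := (Fin.natAddEmb n).injective h
      rwa [← this]
  · intro h
    exact Or.inr ⟨i, h, rfl⟩

theorem key (hπ : Function.Surjective π) (τ : Finset (Fin k)) (M : ℕ) (Q' : Finset (Fin r))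
    (hQ' : Q' ⊆ τ.image π) (U : Fin (n + r) → ℕ) (hA : Adm (JQ n Q') U)
    (h1 : ∀ j ∈ τ, ∑ i, U i * cay π m j i = M) (h2 : ∀ j, j ∉ τ → M < ∑ i, U i * cay π m j i) :
    (∀ i ∈ τ.image π, ordI π m (fun v => U (Fin.castAdd r v)) i + U (Fin.natAdd n i) = M) ∧
      ∀ i, i ∉ τ.image π → U (Fin.natAdd n i) = 0 ∧
        M < ordI π m (fun v => U (Fin.castAdd r v)) i := by
  have hz : ∀ i, i ∉ τ.image π → U (Fin.natAdd n i) = 0 := by
    intro i hi
    by_contra h
    exact hi (hQ' ((mem_JQ_right Q' i).1 ((hA _).1 h)))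
  constructor
  · intro i hi
    obtain ⟨j0, hj0, rfl⟩ := Finset.mem_image.1 hi
    have h3 := h1 j0 hj0
    rw [dotc] at h3
    have h4 := ordI_le π m (fun v => U (Fin.castAdd r v)) j0
    obtain ⟨j, hj, h5⟩ := ordI_att π m hπ (fun v => U (Fin.castAdd r v)) (π j0)
    have h6 : M ≤ ∑ v, U (Fin.castAdd r v) * m j v + U (Fin.natAdd n (π j)) := by
      rw [← dotc]
      by_cases hjt : j ∈ τ
      · exact (h1 j hjt).ge
      · exact (h2 j hjt).le
    rw [hj] at h6
    omega
  · intro i hi
    refine ⟨hz i hi, ?_⟩
    obtain ⟨j, hj, h5⟩ := ordI_att π m hπ (fun v => U (Fin.castAdd r v)) i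
    have hjt : j ∉ τ := fun h => hi (Finset.mem_image.2 ⟨j, h, hj⟩)
    have h6 := h2 j hjt
    rw [dotc, hj, hz i hi] at h6
    omega

theorem main : S_CPI := by
  intro n k r π m hπ τ hτ M
  unfold cpI cp
  rw [Finset.sum_sigma']
  set Q := τ.image π with hQ
  refine Finset.sum_nbij'
    (fun u => (⟨Finset.univ.filter fun i => lv π m Q M u i ≠ 0, Fin.append u (lv π m Q M u)⟩ :
      (_ : Finset (Fin r)) × (Fin (n + r) → ℕ)))
    (fun p => fun v => p.2 (Fin.castAdd r v)) ?_ ?_ ?_ ?_ ?_
  · intro u hu
    obtain ⟨hu1, hu2, hu3, hu4⟩ := Finset.mem_filter.1 hu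
    rw [Fintype.mem_piFinset] at hu1
    refine Finset.mem_sigma.2 ⟨?_, Finset.mem_filter.2 ⟨?_, ?_, ?_⟩⟩
    · rw [Finset.mem_powerset]
      intro i hi
      have := (Finset.mem_filter.1 hi).2
      unfold lv at this
      by_contra h
      rw [if_neg h] at this
      exact this rfl
    · rw [Fintype.mem_piFinset]
      intro i
      refine Fin.addCases (fun v => ?_) (fun i => ?_) i
      · simp only [Fin.append_left]
        exact hu1 v
      · simp only [Fin.append_right]
        unfold lv
        rw [Finset.mem_range]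
        split_ifs
        · omega
        · omega
    · intro i
      refine Fin.addCases (fun v => ?_) (fun i => ?_) i
      · simp only [Fin.append_left]
        exact ⟨fun _ => mem_JQ_left _ v, fun _ => (hu2 v).2 (Finset.mem_univ _)⟩
      · simp only [Fin.append_right]
        rw [mem_JQ_right, Finset.mem_filter]
        simp
    · rw [gord_spec _ _ _ hτ]
      have hlow : ∀ i, i ∈ Q ↔ ordI π m u i < M + 1 := by
        intro i
        rw [← hu3]
        unfold low
        rw [Finset.mem_filter]
        simp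
      have htau : ∀ j, j ∈ τ ↔ ordI π m u (π j) < M + 1 ∧
          ∑ v, u v * m j v = ordI π m u (π j) := by
        intro j
        rw [← hu4]
        unfold tau
        rw [Finset.mem_filter]
        simp
      constructor
      · intro j hj
        rw [dotc]
        simp only [Fin.append_left, Fin.append_right]
        have h1 := (htau j).1 hj
        unfold lv
        rw [if_pos ((hlow _).2 h1.1)]
        omega
      · intro j hj
        rw [dotc]
        simp only [Fin.append_left, Fin.append_right]
        have h1 := ordI_le π m u j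
        have h2 : ¬ (ordI π m u (π j) < M + 1 ∧
          ∑ v, u v * m j v = ordI π m u (π j)) := fun h => hj ((htau j).2 h)
        unfold lv
        split_ifs with h3
        · rw [hlow] at h3
          omega
        · rw [hlow] at h3
          omega
  · rintro ⟨Q', U⟩ hU
    obtain ⟨h1, h2⟩ := Finset.mem_sigma.1 hU
    obtain ⟨h3, h4, h5⟩ := Finset.mem_filter.1 h2
    simp only at h1 h3 h4 h5
    rw [Finset.mem_powerset] at h1
    rw [gord_spec _ _ _ hτ] at h5
    rw [Fintype.mem_piFinset] at h3
    obtain ⟨h6, h7⟩ := key π m hπ τ M Q' h1 U h4 h5.1 h5.2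
    refine Finset.mem_filter.2 ⟨?_, ?_, ?_, ?_⟩
    · rw [Fintype.mem_piFinset]
      intro v
      exact h3 _
    · intro v
      exact ⟨fun _ => Finset.mem_univ _, fun _ => (h4 _).2 (mem_JQ_left _ v)⟩
    · ext i
      unfold low
      rw [Finset.mem_filter]
      by_cases hi : i ∈ Q
      · have := h6 i hi
        simp only [Finset.mem_univ, true_and, hi, iff_true]
        omega
      · have := h7 i hi
        simp only [Finset.mem_univ, true_and, hi, iff_false]
        omega
    · ext j
      unfold tau
      rw [Finset.mem_filter]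
      by_cases hj : j ∈ τ
      · have h8 := h6 (π j) (Finset.mem_image_of_mem _ hj)
        have h9 := h5.1 j hj
        rw [dotc] at h9
        simp only [Finset.mem_univ, true_and, hj, iff_true]
        omega
      · have h9 := h5.2 j hj
        rw [dotc] at h9
        simp only [Finset.mem_univ, true_and, hj, iff_false]
        rintro ⟨h10, h11⟩
        by_cases hi : π j ∈ Q
        · have := h6 _ hi
          omega
        · have := h7 _ hi
          omega
  · intro u hu
    funext v
    simp only [Fin.append_left]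
  · rintro ⟨Q', U⟩ hU
    obtain ⟨h1, h2⟩ := Finset.mem_sigma.1 hU
    obtain ⟨h3, h4, h5⟩ := Finset.mem_filter.1 h2
    simp only at h1 h3 h4 h5
    rw [Finset.mem_powerset] at h1
    rw [gord_spec _ _ _ hτ] at h5
    obtain ⟨h6, h7⟩ := key π m hπ τ M Q' h1 U h4 h5.1 h5.2
    have hl : ∀ i, lv π m Q M (fun v => U (Fin.castAdd r v)) i = U (Fin.natAdd n i) := by
      intro i
      unfold lv
      split_ifs with hi
      · have := h6 i hi
        omega
      · exact (h7 i hi).1.symm
    have e1 : (Finset.univ.filter fun i => lv π m Q M (fun v => U (Fin.castAdd r v)) i ≠ 0) =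
        Q' := by
      ext i
      rw [Finset.mem_filter, hl, ← mem_JQ_right (n := n) Q' i, ← h4]
      simp
    have e2 : Fin.append (fun v => U (Fin.castAdd r v))
        (lv π m Q M (fun v => U (Fin.castAdd r v))) = U := by
      funext i
      refine Fin.addCases (fun v => ?_) (fun i => ?_) i
      · simp only [Fin.append_left]
      · simp only [Fin.append_right]
        exact hl i
    exact Sigma.ext e1 (heq_of_eq e2)
  · intro u hu
    obtain ⟨hu1, hu2, hu3, hu4⟩ := Finset.mem_filter.1 hu
    unfold wt
    rw [Fin.prod_univ_add]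
    simp only [Fin.append_left, Fin.append_right]
    congr 1
    · refine Finset.prod_congr rfl fun v _ => ?_
      have : (Fin.castAdd r v ∈ free (fun _ => 0) (cay π m)
          (JQ n (Finset.univ.filter fun i => lv π m Q M u i ≠ 0)) τ) ↔
          v ∈ free (fun _ => 0) m Finset.univ τ := by
        unfold free
        rw [Finset.mem_filter, Finset.mem_filter]
        simp only [mem_JQ_left, Finset.mem_univ, true_and, cay, Fin.append_left]
      simp only [this]
    · have : ∀ i : Fin r, Fin.natAdd n i ∉ free (fun _ => 0) (cay π m)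
          (JQ n (Finset.univ.filter fun i => lv π m Q M u i ≠ 0)) τ := by
        intro i hi
        unfold free at hi
        rw [Finset.mem_filter, mem_JQ_right, Finset.mem_filter] at hi
        obtain ⟨⟨-, h1⟩, -, h2⟩ := hi
        unfold lv at h1
        have hiQ : i ∈ Q := by
          by_contra h
          rw [if_neg h] at h1
          exact h1 rfl
        obtain ⟨j, hj, rfl⟩ := Finset.mem_image.1 hiQ
        have := h2 j hj
        simp [cay] at this
      simp only [this, if_false]
      rw [Finset.prod_pow_eq_pow_sum]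
      congr 1
      unfold lv
      rw [← Finset.sum_filter]
      have : (Finset.univ.filter fun i => i ∈ Q) = Q := by
        ext i
        simp
      rw [this]
      refine Finset.sum_congr rfl fun i _ => ?_
      omega

end

end Pool.Agent.W358.JI
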